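import Pool.Agent.Work.MP_223b32_tc.Interface

/-!
# FROB: the eigenvalues of the curve
-/

namespace Pool.Agent.Work.TC

open Finset Polynomial Pool.Agent.Work.MP_223b32_ag Pool.Agent.Work.MP_223b32_ag_56

namespace FROB

variable {F K : Type} [Field F] [Fintype F] [Field K] [Fintype K] [DecidableEq K] [Algebra F K]

/-- `h ↦ χ(h(a))` -/
noncomputable def chi (F : Type) {K : Type} [Field F] [Field K] [Fintype K] [DecidableEq K]
    [Algebra F K] (a : K) : F[X] →* ℤ :=
  (quadraticChar K).toMonoidHom.comp (aeval a : F[X] →ₐ[F] K).toRingHom.toMonoidHom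

theorem chi_apply (a : K) (h : F[X]) : chi F a h = quadraticChar K (aeval a h) := rfl

theorem aeval_mon (a : K) (m : ℕ) (c : Fin m → F) : aeval a (mon m c) = val a m c := by
  unfold mon val
  rw [map_add, map_pow, aeval_X, map_sum]
  congr 1
  apply sum_congr rfl
  intro i _
  rw [map_mul, aeval_C, map_pow, aeval_X]

theorem msum_eq (a : K) (m : ℕ) : msum (chi F a) m = bb F a m := by
  unfold msum bb
  apply sum_congr rfl
  intro c _
  rw [chi_apply, aeval_mon]

theorem bb_zero (a : K) : bb F a 0 = 1 := by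
  unfold bb
  rw [Fintype.sum_unique]
  unfold val
  simp

theorem card_points {E : Type} [Field E] [Fintype E] [DecidableEq E] (hE : ringChar E ≠ 2)
    (g : E → E) : (Nat.card {P : E × E // P.2 ^ 2 = g P.1} : ℤ) =
      Fintype.card E + ∑ x : E, quadraticChar E (g x) := by
  have h1 : Nat.card {P : E × E // P.2 ^ 2 = g P.1} =
      ∑ x : E, Nat.card {y : E // y ^ 2 = g x} := by
    rw [Nat.card_congr (Equiv.subtypeProdEquivSigmaSubtype fun x y => y ^ 2 = g x)]
    rw [Nat.card_sigma]
  have h2 : ∀ x : E, (Nat.card {y : E // y ^ 2 = g x} : ℤ) = quadraticChar E (g x) + 1 := by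
    intro x
    rw [← quadraticChar_card_sqrts hE (g x)]
    congr 1
    rw [Nat.card_eq_fintype_card, Set.toFinset_card]
    rfl
  rw [h1]
  push_cast
  rw [sum_congr rfl fun x _ => h2 x, sum_add_distrib, add_comm]
  simp

end FROB

open FROB in
theorem stmt_FROB (hB0 : Stmt_B0) (hEP : Stmt_EP) (hLE : Stmt_LE) (hPC : Stmt_PC)
    (hNW : Stmt_NW) : Stmt_FROB := by
  intro F K _ _ _ _ _ _ _ hF hodd a ha N hN
  obtain ⟨β, hβ1, hβ2⟩ := hNW N (bb F a) (lam (chi F a)) (bb_zero a)
    (fun m hm => hB0 F K hF a ha m (by omega))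
    (fun m hm => by
      have h := hEP F (chi F a) m hm
      simp only [msum_eq] at h
      exact h)
  refine ⟨β, hβ1, ?_⟩
  intro E _ _ _
  classical
  have hE : ringChar E ≠ 2 := by
    rw [← Algebra.ringChar_eq F E]
    exact hF
  have hk : 1 ≤ Module.finrank F E := Module.finrank_pos
  have h1 := card_points hE (fun x : E => aeval x (minpoly F a))
  have h2 : ∑ x : E, quadraticChar E (aeval x (minpoly F a)) =
      quadraticChar F (-1) ^ Module.finrank F E * lam (chi F a) (Module.finrank F E) := by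
    rw [← hLE F E (chi F a), mul_sum]
    apply sum_congr rfl
    intro x _
    rw [hPC F K E hF hodd a ha x, chi_apply]
  rw [h2] at h1
  have h3 := congrArg (fun z : ℤ => (z : ℂ)) h1
  push_cast at h3
  rw [h3, hβ2 _ hk]
  have h4 : ∑ i, ((quadraticChar F (-1) : ℂ) * β i) ^ Module.finrank F E =
      (quadraticChar F (-1) : ℂ) ^ Module.finrank F E * ∑ i, β i ^ Module.finrank F E := by
    rw [mul_sum]
    apply sum_congr rfl
    intro i _
    rw [mul_pow]
  rw [h4]
  ring

end Pool.Agent.Work.TC
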