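import Pool.Agent.Work.MP_223b32_tc.Interface

/-!
# RED: the reduction of the eigenvalues
-/

namespace Pool.Agent.Work.TC

open Finset Polynomial Pool.Agent.Work.MP_223b32_ag Pool.Agent.Work.MP_223b32_ag_56

namespace RED

theorem key {R : Type} [CommRing R] (N : ℕ) (q : R) (b : ℕ → R) (x : R) :
    (x - q) * ∑ m ∈ range (N + 1), b m * x ^ (N - m) =
      b 0 * x ^ (N + 1) + ∑ m ∈ range N, (b (m + 1) - q * b m) * x ^ (N - m) - q * b N := by
  have h1 : x * ∑ m ∈ range (N + 1), b m * x ^ (N - m) =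
      ∑ m ∈ range N, b (m + 1) * x ^ (N - m) + b 0 * x ^ (N + 1) := by
    rw [mul_sum, sum_range_succ']
    congr 1
    · apply sum_congr rfl
      intro m hm
      have h2 : N - m = (N - (m + 1)) + 1 := by
        have := mem_range.1 hm
        omega
      rw [h2]
      ring
    · simp only [Nat.sub_zero]
      ring
  have h3 : q * ∑ m ∈ range (N + 1), b m * x ^ (N - m) =
      ∑ m ∈ range N, q * b m * x ^ (N - m) + q * b N := by
    rw [mul_sum, sum_range_succ]
    congr 1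
    · apply sum_congr rfl
      intro m _
      ring
    · simp
  rw [sub_mul, h1, h3]
  have h4 : ∑ m ∈ range N, (b (m + 1) - q * b m) * x ^ (N - m) =
      ∑ m ∈ range N, b (m + 1) * x ^ (N - m) - ∑ m ∈ range N, q * b m * x ^ (N - m) := by
    rw [← sum_sub_distrib]
    apply sum_congr rfl
    intro m _
    ring
  rw [h4]
  ring

/-- the equation `x ^ (N + 1) = 1 + 2 w` -/
theorem eqn {R : Type} [CommRing R] (N : ℕ) (q d : R) (b c r : ℕ → R) (x : R) (hb : b 0 = 1)
    (h1 : ∀ m, m < N → q * b m + 2 * r (m + 1) - b (m + 1) = 4 * c m)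
    (h2 : 1 + 2 * r (N + 1) - q * b N = 4 * d)
    (hx : ∑ m ∈ range (N + 1), b m * x ^ (N - m) = 0) :
    x ^ (N + 1) = 1 + 2 * (r (N + 1) - 2 * d -
      ∑ m ∈ range N, (r (m + 1) - 2 * c m) * x ^ (N - m)) := by
  have h3 := key N q b x
  rw [hx, mul_zero, hb, one_mul] at h3
  have h4 : ∑ m ∈ range N, (b (m + 1) - q * b m) * x ^ (N - m) =
      2 * ∑ m ∈ range N, (r (m + 1) - 2 * c m) * x ^ (N - m) := by
    rw [mul_sum]
    apply sum_congr rfl
    intro m hm
    have h5 : b (m + 1) - q * b m = 2 * (r (m + 1) - 2 * c m) := by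
      linear_combination -(h1 m (mem_range.1 hm))
    rw [h5]
    ring
  rw [h4] at h3
  linear_combination -h3 - h2

theorem odd_b (N q : ℕ) (hq : Odd q) (b : ℕ → ℤ) (r : ℕ → ℕ) (hb : b 0 = 1)
    (h : ∀ m, m < N → b (m + 1) ≡ q * b m + 2 * r (m + 1) [ZMOD 4]) :
    ∀ m, m ≤ N → Odd (b m) := by
  intro m
  induction m with
  | zero => intro _; rw [hb]; exact odd_one
  | succ m ih =>
    intro hm
    have h1 := ih (by omega)
    obtain ⟨k, hk⟩ := Int.modEq_iff_dvd.1 (h m (by omega))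
    have h2 : Odd ((q : ℤ) * b m) := (by exact_mod_cast hq : Odd (q : ℤ)).mul h1
    obtain ⟨l, hl⟩ := h2
    refine ⟨l + r (m + 1) - 2 * k, ?_⟩
    linarith

theorem cast_odd {G : Type} [Field G] [CharP G 2] {z : ℤ} (hz : Odd z) : (z : G) = 1 := by
  obtain ⟨k, rfl⟩ := hz
  push_cast
  rw [CharTwo.two_eq_zero]
  ring

theorem cast_odd_nat {G : Type} [Field G] [CharP G 2] {z : ℕ} (hz : Odd z) : (z : G) = 1 := by
  obtain ⟨k, rfl⟩ := hz
  push_cast
  rw [CharTwo.two_eq_zero]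
  ring

theorem ZZ_eq {G : Type} [CommSemiring G] (N : ℕ) (r : ℕ → ℕ) (ζ : G) :
    ZZ (N + 1) r ζ = ∑ m ∈ range N, (r (m + 1) : G) * ζ ^ (N - m) + r (N + 1) := by
  unfold ZZ
  have h : Icc 1 (N + 1) = Ico 1 (N + 2) := by
    ext k
    simp only [mem_Icc, mem_Ico]
    omega
  rw [h, sum_Ico_eq_sum_range]
  have h2 : N + 2 - 1 = N + 1 := rfl
  rw [h2, sum_range_succ]
  congr 1
  · apply sum_congr rfl
    intro m hm
    have h3 : N + 1 - (1 + m) = N - m := by omega
    rw [h3, add_comm 1 m]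
  · rw [add_comm 1 N, Nat.sub_self, pow_zero, mul_one]

theorem sep {G : Type} [Field G] [CharP G 2] {N : ℕ} (hN : Even N) (γ : Fin N → G)
    (hprod : ∏ i, (X - C (γ i)) = ∑ j ∈ range (N + 1), (X : G[X]) ^ j) :
    (∀ i, γ i ≠ 1) ∧ Function.Injective γ := by
  have hN1 : Odd (N + 1) := hN.add_one
  constructor
  · intro i hi
    have h1 := congrArg (Polynomial.eval 1) hprod
    rw [eval_prod, prod_eq_zero (mem_univ i) (by rw [eval_sub, eval_X, eval_C, hi, sub_self]),
      eval_geom_sum] at h1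
    simp only [one_pow, sum_const, card_range, nsmul_eq_mul, mul_one] at h1
    rw [cast_odd_nat hN1] at h1
    exact zero_ne_one h1
  · rw [← separable_prod_X_sub_C_iff, hprod]
    have h2 : (X ^ (N + 1) - C (1 : G)).Separable := by
      apply separable_X_pow_sub_C
      · rw [cast_odd_nat hN1]
        exact one_ne_zero
      · exact one_ne_zero
    apply h2.of_dvd
    rw [C_1, ← geom_sum_mul]
    exact dvd_mul_right _ _

theorem geo {G : Type} [Field G] [CharP G 2] {N : ℕ} (b : ℕ → ℤ) (hodd : ∀ m ≤ N, Odd (b m)) :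
    ∑ m ∈ range (N + 1), C ((b m : ℤ) : G) * X ^ (N - m) =
      ∑ j ∈ range (N + 1), (X : G[X]) ^ j := by
  have h4 : ∑ j ∈ range (N + 1), (X : G[X]) ^ j = ∑ m ∈ range (N + 1), (X : G[X]) ^ (N - m) :=
    (sum_range_reflect (fun j => (X : G[X]) ^ j) (N + 1)).symm
  rw [h4]
  apply sum_congr rfl
  intro m hm
  rw [cast_odd (hodd m (by have := mem_range.1 hm; omega)), C_1, one_mul]

theorem core {A G : Type} [CommRing A] [Field G] [CharP G 2] (ι : A →+* ℂ)
    (hι : Function.Injective ι) (ρ : A →+* G) (N q : ℕ) (hN : Even N) (hq : Odd q)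
    (b : ℕ → ℤ) (r : ℕ → ℕ) (hb0 : b 0 = 1)
    (hrec : ∀ m, m < N → b (m + 1) ≡ q * b m + 2 * r (m + 1) [ZMOD 4])
    (hlast : q * b N ≡ 1 + 2 * r (N + 1) [ZMOD 4])
    (β : Fin N → ℂ)
    (hβ : ∏ i, (X - C (β i)) = ∑ m ∈ range (N + 1), C (b m : ℂ) * X ^ (N - m))
    (β' : Fin N → A) (hβ' : ∀ i, ι (β' i) = β i) :
    ∃ w : Fin N → A, (∀ i, β' i ^ (N + 1) = 1 + 2 * w i) ∧
        (∀ i, ρ (w i) = ZZ (N + 1) r (ρ (β' i))) ∧
        (∀ i, ρ (β' i) ^ (N + 1) = 1 ∧ ρ (β' i) ≠ 1) ∧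
        Function.Injective fun i => ρ (β' i) := by
  have hprodA : ∏ i, (X - C (β' i)) = ∑ m ∈ range (N + 1), C ((b m : ℤ) : A) * X ^ (N - m) := by
    apply Polynomial.map_injective ι hι
    rw [Polynomial.map_prod, Polynomial.map_sum]
    have h1 : ∀ i, (X - C (β' i)).map ι = X - C (β i) := by
      intro i
      rw [Polynomial.map_sub, map_X, Polynomial.map_C, hβ']
    rw [prod_congr rfl (fun i _ => h1 i), hβ]
    apply sum_congr rfl
    intro m _
    rw [Polynomial.map_mul, Polynomial.map_C, Polynomial.map_pow, map_X, map_intCast ι]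
  have hzero : ∀ i, ∑ m ∈ range (N + 1), ((b m : ℤ) : A) * β' i ^ (N - m) = 0 := by
    intro i
    have h1 := congrArg (Polynomial.eval (β' i)) hprodA
    rw [eval_prod, prod_eq_zero (mem_univ i) (by rw [eval_sub, eval_X, eval_C, sub_self]),
      eval_finsetSum] at h1
    rw [h1]
    apply sum_congr rfl
    intro m _
    rw [eval_mul, eval_C, eval_pow, eval_X]
  choose! c hc using fun m (hm : m < N) => (Int.modEq_iff_dvd.1 (hrec m hm))
  obtain ⟨d, hd⟩ := Int.modEq_iff_dvd.1 hlast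
  have hodd := odd_b N q hq b r hb0 hrec
  have hN1 : Odd (N + 1) := hN.add_one
  obtain ⟨w, hwdef⟩ : ∃ w : Fin N → A, ∀ i, w i = ((r (N + 1) : ℕ) : A) - 2 * (d : A) -
      ∑ m ∈ range N, (((r (m + 1) : ℕ) : A) - 2 * (c m : A)) * β' i ^ (N - m) :=
    ⟨_, fun i => rfl⟩
  have hw : ∀ i, β' i ^ (N + 1) = 1 + 2 * w i := by
    intro i
    rw [hwdef]
    apply eqn N (q : A) (d : A) (fun m => ((b m : ℤ) : A)) (fun m => ((c m : ℤ) : A))
      (fun m => ((r m : ℕ) : A)) (β' i)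
    · rw [hb0, Int.cast_one]
    · intro m hm
      have h2 := congrArg (fun z : ℤ => (z : A)) (hc m hm)
      push_cast at h2
      exact h2
    · have h2 := congrArg (fun z : ℤ => (z : A)) hd
      push_cast at h2
      exact h2
    · exact hzero i
  have h2G : (2 : G) = 0 := CharTwo.two_eq_zero
  have hρw : ∀ i, ρ (w i) = ZZ (N + 1) r (ρ (β' i)) := by
    intro i
    rw [ZZ_eq, hwdef, map_sub, map_sub, map_mul, map_ofNat, h2G, zero_mul, sub_zero,
      map_natCast, CharTwo.sub_eq_add, add_comm, map_sum]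
    congr 1
    apply sum_congr rfl
    intro m _
    rw [map_mul, map_sub, map_mul, map_ofNat, h2G, zero_mul, sub_zero, map_natCast, map_pow]
  have hpow : ∀ i, ρ (β' i) ^ (N + 1) = 1 := by
    intro i
    rw [← map_pow, hw i, map_add, map_mul, map_one, map_ofNat, h2G, zero_mul, add_zero]
  have hprod : ∏ i, (X - C (ρ (β' i))) = ∑ j ∈ range (N + 1), (X : G[X]) ^ j := by
    have h1 := congrArg (Polynomial.map ρ) hprodA
    rw [Polynomial.map_prod, Polynomial.map_sum] at h1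
    have h2 : ∀ i, (X - C (β' i)).map ρ = X - C (ρ (β' i)) := by
      intro i
      rw [Polynomial.map_sub, map_X, Polynomial.map_C]
    rw [prod_congr rfl (fun i _ => h2 i)] at h1
    rw [h1, ← geo b hodd]
    apply sum_congr rfl
    intro m _
    rw [Polynomial.map_mul, Polynomial.map_C, Polynomial.map_pow, map_X, map_intCast ρ]
  obtain ⟨hne, hinj⟩ := sep hN (fun i => ρ (β' i)) hprod
  exact ⟨w, hw, hρw, fun i => ⟨hpow i, hne i⟩, hinj⟩

theorem integral {N : ℕ} (b : ℕ → ℤ) (β : Fin N → ℂ)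
    (hβ : ∏ i, (X - C (β i)) = ∑ m ∈ range (N + 1), C (b m : ℂ) * X ^ (N - m)) (i : Fin N) :
    IsIntegral ℤ (β i) := by
  have hP : ((∑ m ∈ range (N + 1), C (b m) * X ^ (N - m) : ℤ[X]).map (Int.castRingHom ℂ)) =
      ∏ i, (X - C (β i)) := by
    rw [hβ, Polynomial.map_sum]
    apply sum_congr rfl
    intro m _
    simp
  refine ⟨∑ m ∈ range (N + 1), C (b m) * X ^ (N - m), ?_, ?_⟩
  · apply Polynomial.monic_of_injective (RingHom.injective_int (Int.castRingHom ℂ))
    rw [hP]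
    exact monic_prod_of_monic _ _ (fun j _ => monic_X_sub_C _)
  · have : algebraMap ℤ ℂ = Int.castRingHom ℂ := rfl
    rw [this, ← eval_map, hP, eval_prod]
    exact prod_eq_zero (mem_univ i) (by simp)

end RED

open RED in
theorem stmt_RED : Stmt_RED := by
  intro ρ N q hN hq b r hb0 hrec hlast β hβ
  obtain ⟨w, h1, h2, h3, h4⟩ := core (algebraMap (integralClosure ℤ ℂ) ℂ)
    Subtype.val_injective ρ N q hN hq b r hb0 hrec hlast β hβ
    (fun i => ⟨β i, integral b β hβ i⟩) (fun i => rfl)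
  exact ⟨fun i => ⟨β i, integral b β hβ i⟩, w, fun i => rfl, h1, h2, h3, h4⟩

end Pool.Agent.Work.TC
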